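import Pool.Agent.H838R3.CSFinal

/-!
# Column stabilization of algebraic boundaries of nonnegative rank

For every `r` (in particular for every `r ≥ 3`) the number `n₀ = r * 2 ^ r + 1` works: for all
numbers of columns `n + 1 ≥ n₀`, all numbers of rows `m` and every matrix `M` on the algebraic
boundary of the set of `m × (n + 1)` matrices of nonnegative rank at most `r`, some column of `M`
can be deleted so that the remaining matrix lies on the algebraic boundary of the set of `m × n`
matrices of nonnegative rank at most `r`.
-/

namespace Pool.Agent.Results.MP_2b7562_ag.ColumnStabilization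

open Pool.Agent.H838R3.CS

theorem result :
    ∀ r n : ℕ, r * 2 ^ r + 1 ≤ n + 1 → ∀ m : ℕ,
      ∀ M ∈ algebraicBoundary m (n + 1) r,
        ∃ i₀ : Fin (n + 1), deleteColumn M i₀ ∈ algebraicBoundary m n r :=
  fun _ _ hn _ _ hM => main (Nat.le_of_succ_le_succ hn) hM

end Pool.Agent.Results.MP_2b7562_ag.ColumnStabilization
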